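import Pool.Agent.V11319.MCDataG

/-!
The numbers `g 19 = 1129` and `g 27 = 2289` are non-MC.
The notions `inside`, `Encloses`, `IsMCCircle`, `IsMC` are in `Pool.Agent.V11319.MCDefs`.
-/

namespace Pool.Agent.Results.MP_b0ed8d_nt.GNonMC

open Pool.Agent.V11319.MC

/-- `g k` is the number of pairs of integers `(a, b)` with `a ^ 2 + b ^ 2 ≤ k ^ 2`. -/
noncomputable def g (k : ℕ) : ℕ := {p : ℤ × ℤ | p.1 ^ 2 + p.2 ^ 2 ≤ (k : ℤ) ^ 2}.ncard

lemma g_eq {k N : ℕ} (lu ld : List ℕ) (h : exCheck lu ld (k ^ 2 + 1) 1 0 = true)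
    (hN : exCount lu ld (k ^ 2 + 1) 1 0 0 = N) : g k = N := by
  obtain ⟨F, h1, h2⟩ := exCount_spec (u := 0) lu ld one_pos (by norm_num) (by norm_num) h
  rw [g, ← hN, ← h1, ← Set.ncard_coe_finset]
  congr 1
  ext p
  rw [Set.mem_ofPred_eq, Finset.mem_coe, h2, nrm]
  push_cast
  constructor
  · intro h; linarith
  · intro h; linarith

lemma g19 : g 19 = 1129 :=
  g_eq [20, 19, 19, 19, 19, 19, 18, 18, 18, 17, 16, 16, 15, 14, 13, 12, 10, 8, 5]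
    [20, 20, 19, 19, 19, 19, 19, 18, 18, 17, 17, 16, 15, 14, 13, 12, 11, 9, 7, 1]
    (by decide +kernel) (by decide +kernel)

lemma g27 : g 27 = 2289 :=
  g_eq [28, 27, 27, 27, 27, 27, 27, 26, 26, 26, 25, 25, 24, 24, 23, 23, 22, 21, 20, 19, 18, 17,
      15, 14, 12, 9, 6]
    [28, 28, 27, 27, 27, 27, 27, 27, 26, 26, 26, 25, 25, 24, 24, 23, 22, 22, 21, 20, 19, 18, 16,
      15, 13, 11, 8, 2]
    (by decide +kernel) (by decide +kernel)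

/-- There is `k ≥ 1` other than `1` and `10` for which `g k` is non-MC; indeed `g 19 = 1129` and
`g 27 = 2289` are non-MC. -/
theorem result : (∃ k : ℕ, 1 ≤ k ∧ k ≠ 1 ∧ k ≠ 10 ∧ ¬ IsMC (g k)) ∧
    (g 19 = 1129 ∧ ¬ IsMC (g 19)) ∧ (g 27 = 2289 ∧ ¬ IsMC (g 27)) := by
  have h19 : ¬ IsMC (g 19) := by rw [g19]; exact not_isMC_1129
  have h27 : ¬ IsMC (g 27) := by rw [g27]; exact not_isMC_2289
  exact ⟨⟨27, by norm_num, by norm_num, by norm_num, h27⟩, ⟨g19, h19⟩, ⟨g27, h27⟩⟩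

end Pool.Agent.Results.MP_b0ed8d_nt.GNonMC
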